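import Mathlib

/-! Irreducible spaces of operators whose squares are scalars: the dimension is a power of two. -/

namespace Helper66.BPC

universe u

section irr

variable {K V : Type*} [Field K] [AddCommGroup V] [Module K V]

/-- irreducibility under a set of operators -/
def Irr (S : Set (Module.End K V)) : Prop :=
  (∃ v : V, v ≠ 0) ∧
    ∀ U : Submodule K V, (∀ X ∈ S, ∀ u ∈ U, X u ∈ U) → U = ⊥ ∨ U = ⊤

end irr

variable {K : Type*} [Field K]

/-- polarisation of the squares -/
lemma pol {W : Type*} [AddCommGroup W] [Module K W] {J : Submodule K (Module.End K W)}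
    (hJ : ∀ X ∈ J, ∃ c : K, X * X = c • (1 : Module.End K W)) {X Y : Module.End K W}
    (hX : X ∈ J) (hY : Y ∈ J) : ∃ c : K, X * Y + Y * X = c • (1 : Module.End K W) := by
  obtain ⟨a, ha⟩ := hJ _ (J.add_mem hX hY)
  obtain ⟨b, hb⟩ := hJ _ hX
  obtain ⟨c, hc⟩ := hJ _ hY
  refine ⟨a - b - c, ?_⟩
  rw [sub_smul, sub_smul, ← ha, ← hb, ← hc]
  noncomm_ring

/-- a square-zero element has a partner -/
lemma partner {W : Type*} [AddCommGroup W] [Module K W] {J : Submodule K (Module.End K W)}
    (hJ : ∀ X ∈ J, ∃ c : K, X * X = c • (1 : Module.End K W)) (hI : Irr (J : Set (Module.End K W)))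
    {e : Module.End K W} (he : e ∈ J) (h0 : e ≠ 0) (hee : e * e = 0) :
    ∃ f ∈ J, f * f = 0 ∧ e * f + f * e = 1 := by
  have h1 : ∃ f ∈ J, ∃ c : K, c ≠ 0 ∧ e * f + f * e = c • (1 : Module.End K W) := by
    by_contra hcon
    push Not at hcon
    have hz : ∀ f ∈ J, e * f + f * e = 0 := by
      intro f hf
      obtain ⟨c, hc⟩ := pol hJ he hf
      by_cases hc0 : c = 0
      · rw [hc, hc0, zero_smul]
      · exact absurd hc (hcon f hf c hc0)
    rcases hI.2 (LinearMap.ker e) (by
      intro X hX u hu
      rw [LinearMap.mem_ker] at hu ⊢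
      have h := congrArg (fun g => g u) (hz X hX)
      simp only [LinearMap.add_apply, Module.End.mul_apply, LinearMap.zero_apply] at h
      rw [hu, map_zero, add_zero] at h
      exact h) with h | h
    · apply h0
      ext v
      have h3 : e v ∈ LinearMap.ker e := by
        rw [LinearMap.mem_ker]
        exact congrArg (fun g => g v) hee
      rw [h, Submodule.mem_bot] at h3
      rw [h3, LinearMap.zero_apply]
    · apply h0
      exact LinearMap.ker_eq_top.1 h
  obtain ⟨f, hf, c, hc, hfc⟩ := h1
  obtain ⟨d, hd⟩ := hJ _ (J.smul_mem c⁻¹ hf)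
  have hg : e * (c⁻¹ • f) + (c⁻¹ • f) * e = 1 := by
    rw [mul_smul_comm, smul_mul_assoc, ← smul_add, hfc, smul_smul, inv_mul_cancel₀ hc, one_smul]
  refine ⟨c⁻¹ • f - d • e, J.sub_mem (J.smul_mem _ hf) (J.smul_mem _ he), ?_, ?_⟩
  · generalize c⁻¹ • f = g at *
    have : (g - d • e) * (g - d • e) = g * g - d • (e * g + g * e) + (d * d) • (e * e) := by
      simp only [mul_sub, sub_mul, mul_smul_comm, smul_mul_assoc, smul_add, smul_sub, smul_smul]
      abel
    rw [this, hd, hg, hee, smul_zero, add_zero, sub_self]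
  · generalize c⁻¹ • f = g at *
    have : e * (g - d • e) + (g - d • e) * e = (e * g + g * e) - (2 * d) • (e * e) := by
      simp only [mul_sub, sub_mul, mul_smul_comm, smul_mul_assoc]
      rw [two_mul, add_smul]
      abel
    rw [this, hg, hee, smul_zero, sub_zero]

/-- the dimension is twice the dimension of the kernel -/
lemma finrank_ker {W : Type*} [AddCommGroup W] [Module K W] [FiniteDimensional K W]
    {e f : Module.End K W} (hee : e * e = 0) (hef : e * f + f * e = 1) :
    Module.finrank K W = 2 * Module.finrank K (LinearMap.ker e) := by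
  have h1 : LinearMap.range e = LinearMap.ker e := by
    apply le_antisymm
    · rintro _ ⟨v, rfl⟩
      rw [LinearMap.mem_ker]
      exact congrArg (fun g => g v) hee
    · intro v hv
      rw [LinearMap.mem_ker] at hv
      refine ⟨f v, ?_⟩
      have h := congrArg (fun g => g v) hef
      simp only [LinearMap.add_apply, Module.End.mul_apply, Module.End.one_apply] at h
      rw [hv, map_zero, add_zero] at h
      exact h
  have h2 := LinearMap.finrank_range_add_finrank_ker e
  rw [h1] at h2
  omega

/-- the reduced space of operators on the kernel -/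
def red {W : Type*} [AddCommGroup W] [Module K W] (J : Submodule K (Module.End K W))
    (e f : Module.End K W) : Submodule K (Module.End K (LinearMap.ker e)) where
  carrier := {Y | ∃ X ∈ J, e * X + X * e = 0 ∧ f * X + X * f = 0 ∧
    ∀ w : LinearMap.ker e, ((Y w : LinearMap.ker e) : W) = X w}
  add_mem' := by
    rintro Y Y' ⟨X, hX, h1, h2, h3⟩ ⟨X', hX', h1', h2', h3'⟩
    refine ⟨X + X', J.add_mem hX hX', ?_, ?_, ?_⟩
    · have : e * (X + X') + (X + X') * e = (e * X + X * e) + (e * X' + X' * e) := by
        noncomm_ring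
      rw [this, h1, h1', add_zero]
    · have : f * (X + X') + (X + X') * f = (f * X + X * f) + (f * X' + X' * f) := by
        noncomm_ring
      rw [this, h2, h2', add_zero]
    · intro w
      rw [LinearMap.add_apply, LinearMap.add_apply, Submodule.coe_add, h3, h3']
  zero_mem' := ⟨0, J.zero_mem, by simp, by simp, by simp⟩
  smul_mem' := by
    rintro c Y ⟨X, hX, h1, h2, h3⟩
    refine ⟨c • X, J.smul_mem c hX, ?_, ?_, ?_⟩
    · rw [mul_smul_comm, smul_mul_assoc, ← smul_add, h1, smul_zero]
    · rw [mul_smul_comm, smul_mul_assoc, ← smul_add, h2, smul_zero]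
    · intro w
      rw [LinearMap.smul_apply, LinearMap.smul_apply, Submodule.coe_smul, h3]

/-- an operator anticommuting with `e` restricts to the kernel -/
lemma exists_red {W : Type*} [AddCommGroup W] [Module K W] {J : Submodule K (Module.End K W)}
    {e f X : Module.End K W} (hX : X ∈ J) (h1 : e * X + X * e = 0) (h2 : f * X + X * f = 0) :
    ∃ Y ∈ red J e f, ∀ w : LinearMap.ker e, ((Y w : LinearMap.ker e) : W) = X w := by
  have h : ∀ w ∈ LinearMap.ker e, X w ∈ LinearMap.ker e := by
    intro w hw
    rw [LinearMap.mem_ker] at hw ⊢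
    have h := congrArg (fun g => g w) h1
    simp only [LinearMap.add_apply, Module.End.mul_apply, LinearMap.zero_apply] at h
    rwa [hw, map_zero, add_zero] at h
  exact ⟨X.restrict h, ⟨X, hX, h1, h2, fun w => rfl⟩, fun w => rfl⟩

lemma red_sq {W : Type*} [AddCommGroup W] [Module K W] {J : Submodule K (Module.End K W)}
    (hJ : ∀ X ∈ J, ∃ c : K, X * X = c • (1 : Module.End K W)) {e f : Module.End K W} :
    ∀ Y ∈ red J e f, ∃ c : K, Y * Y = c • (1 : Module.End K (LinearMap.ker e)) := by
  rintro Y ⟨X, hX, -, -, h3⟩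
  obtain ⟨c, hc⟩ := hJ X hX
  refine ⟨c, ?_⟩
  ext w
  have h := congrArg (fun g => g (w : W)) hc
  simp only [Module.End.mul_apply, LinearMap.smul_apply, Module.End.one_apply] at h
  rw [Module.End.mul_apply, h3, h3, h, LinearMap.smul_apply, Module.End.one_apply,
    Submodule.coe_smul]

lemma red_irr {W : Type*} [AddCommGroup W] [Module K W] {J : Submodule K (Module.End K W)}
    (hJ : ∀ X ∈ J, ∃ c : K, X * X = c • (1 : Module.End K W)) (hI : Irr (J : Set (Module.End K W)))
    {e f : Module.End K W} (he : e ∈ J) (hf : f ∈ J) (hee : e * e = 0) (hff : f * f = 0)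
    (hef : e * f + f * e = 1) : Irr (red J e f : Set (Module.End K (LinearMap.ker e))) := by
  have hefv : ∀ v, e (f v) + f (e v) = v := fun v => congrArg (fun g => g v) hef
  have heev : ∀ v, e (e v) = 0 := fun v => congrArg (fun g => g v) hee
  have hffv : ∀ v, f (f v) = 0 := fun v => congrArg (fun g => g v) hff
  constructor
  · obtain ⟨v, hv⟩ := hI.1
    by_cases h : e v = 0
    · exact ⟨⟨v, h⟩, fun h' => hv (congrArg Subtype.val h')⟩
    · exact ⟨⟨e v, heev v⟩, fun h' => h (congrArg Subtype.val h')⟩
  · intro U' hU'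
    set U : Submodule K W := U'.map (LinearMap.ker e).subtype with hU
    have hUe : ∀ u ∈ U, e u = 0 := by
      rintro _ ⟨w, -, rfl⟩
      exact w.2
    have hUX : ∀ X ∈ J, e * X + X * e = 0 → f * X + X * f = 0 → ∀ u ∈ U, X u ∈ U := by
      rintro X hX h1 h2 _ ⟨w, hw, rfl⟩
      obtain ⟨Y, hY, hY'⟩ := exists_red hX h1 h2
      exact ⟨Y w, hU' Y hY w hw, hY' w⟩
    have hst : ∀ X ∈ J, ∀ u ∈ U ⊔ U.map f, X u ∈ U ⊔ U.map f := by
      intro X hX u hu
      obtain ⟨u1, hu1, u2, ⟨u3, hu3, rfl⟩, rfl⟩ := Submodule.mem_sup.1 hu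
      obtain ⟨a, ha⟩ := pol hJ hf hX
      obtain ⟨b, hb⟩ := pol hJ he hX
      have hX'1 : e * (X - a • e - b • f) + (X - a • e - b • f) * e = 0 := by
        have : e * (X - a • e - b • f) + (X - a • e - b • f) * e =
            (e * X + X * e) - (2 * a) • (e * e) - b • (e * f + f * e) := by
          simp only [mul_sub, sub_mul, mul_smul_comm, smul_mul_assoc, smul_add]
          rw [two_mul, add_smul]
          abel
        rw [this, hb, hee, hef, smul_zero, sub_zero, sub_self]
      have hX'2 : f * (X - a • e - b • f) + (X - a • e - b • f) * f = 0 := by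
        have : f * (X - a • e - b • f) + (X - a • e - b • f) * f =
            (f * X + X * f) - (2 * b) • (f * f) - a • (e * f + f * e) := by
          simp only [mul_sub, sub_mul, mul_smul_comm, smul_mul_assoc, smul_add]
          rw [two_mul, add_smul]
          abel
        rw [this, ha, hff, hef, smul_zero, sub_zero, sub_self]
      have hX' : X - a • e - b • f ∈ J :=
        J.sub_mem (J.sub_mem hX (J.smul_mem _ he)) (J.smul_mem _ hf)
      have hdec : ∀ v, X v = (X - a • e - b • f) v + a • e v + b • f v := by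
        intro v
        simp only [LinearMap.sub_apply, LinearMap.smul_apply]
        abel
      have m1 : ∀ v ∈ U, v ∈ U ⊔ U.map f := fun v hv => Submodule.mem_sup_left hv
      have m2 : ∀ v ∈ U, f v ∈ U ⊔ U.map f := fun v hv =>
        Submodule.mem_sup_right ⟨v, hv, rfl⟩
      have hXu3 : (X - a • e - b • f) (f u3) = - f ((X - a • e - b • f) u3) := by
        have h := congrArg (fun g => g u3) hX'2
        simp only [LinearMap.add_apply, Module.End.mul_apply, LinearMap.zero_apply] at h
        exact (neg_eq_of_add_eq_zero_right h).symm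
      have hefu3 : e (f u3) = u3 := by
        have := hefv u3
        rwa [hUe u3 hu3, map_zero, add_zero] at this
      rw [hdec (u1 + f u3)]
      rw [map_add, map_add, map_add, hXu3, hUe u1 hu1, zero_add, hefu3, hffv, add_zero]
      refine Submodule.add_mem _ (Submodule.add_mem _ (Submodule.add_mem _ ?_ ?_) ?_) ?_
      · exact m1 _ (hUX _ hX' hX'1 hX'2 _ hu1)
      · exact Submodule.neg_mem _ (m2 _ (hUX _ hX' hX'1 hX'2 _ hu3))
      · exact Submodule.smul_mem _ _ (m1 _ hu3)
      · exact Submodule.smul_mem _ _ (m2 _ hu1)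
    rcases hI.2 _ hst with h | h
    · left
      rw [eq_bot_iff]
      intro w hw
      have : (w : W) ∈ U ⊔ U.map f := Submodule.mem_sup_left ⟨w, hw, rfl⟩
      rw [h, Submodule.mem_bot] at this
      rw [Submodule.mem_bot]
      exact Subtype.ext this
    · right
      rw [eq_top_iff]
      intro w _
      have : (w : W) ∈ U ⊔ U.map f := by rw [h]; trivial
      obtain ⟨u1, hu1, u2, ⟨u3, hu3, rfl⟩, h4⟩ := Submodule.mem_sup.1 this
      have h5 := congrArg e h4
      have hefu3 : e (f u3) = u3 := by
        have := hefv u3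
        rwa [hUe u3 hu3, map_zero, add_zero] at this
      have hw0 : e (w : W) = 0 := w.2
      rw [map_add, hUe u1 hu1, zero_add, hefu3, hw0] at h5
      rw [h5, map_zero, add_zero] at h4
      rw [← hU] at *
      obtain ⟨w', hw', h6⟩ := hu1
      have : w' = w := Subtype.ext (h6.trans h4)
      rwa [← this]

/-- no square-zero element: the space is a line -/
lemma line_of_aniso [IsAlgClosed K] {W : Type*} [AddCommGroup W] [Module K W]
    [FiniteDimensional K W] {J : Submodule K (Module.End K W)}
    (hJ : ∀ X ∈ J, ∃ c : K, X * X = c • (1 : Module.End K W)) (hI : Irr (J : Set (Module.End K W)))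
    (hn : ∀ e ∈ J, e * e = 0 → e = 0) : Module.finrank K W = 1 := by
  have key : ∃ v : W, v ≠ 0 ∧ ∀ X ∈ J, ∃ c : K, X v = c • v := by
    by_cases hJ0 : ∃ g ∈ J, g ≠ 0
    · obtain ⟨g, hg, hg0⟩ := hJ0
      obtain ⟨v0, hv0⟩ := hI.1
      have : Nontrivial W := ⟨⟨v0, 0, hv0⟩⟩
      obtain ⟨μ, hμ⟩ := Module.End.exists_eigenvalue g
      obtain ⟨v, hv⟩ := hμ.exists_hasEigenvector
      refine ⟨v, hv.2, fun X hX => ?_⟩
      obtain ⟨c, hc⟩ := hJ g hg
      have hc0 : c ≠ 0 := by
        intro h
        apply hg0
        apply hn g hg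
        rw [hc, h, zero_smul]
      obtain ⟨b, hb⟩ := pol hJ hX hg
      obtain ⟨x, hx⟩ := hJ X hX
      -- root of c t^2 + b t + x
      obtain ⟨t, ht⟩ : ∃ t : K, c * (t * t) + b * t + x = 0 := by
        have hp : (Polynomial.C c * Polynomial.X ^ 2 + Polynomial.C b * Polynomial.X +
            Polynomial.C x).degree ≠ 0 := by
          rw [Polynomial.degree_quadratic hc0]
          decide
        obtain ⟨t, ht⟩ := IsAlgClosed.exists_root _ hp
        refine ⟨t, ?_⟩
        rw [Polynomial.IsRoot.def] at ht
        simp only [Polynomial.eval_add, Polynomial.eval_mul, Polynomial.eval_C,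
          Polynomial.eval_pow, Polynomial.eval_X] at ht
        rw [← ht]
        ring
      have hz : X + t • g = 0 := by
        apply hn _ (J.add_mem hX (J.smul_mem _ hg))
        have : (X + t • g) * (X + t • g) = X * X + t • (X * g + g * X) + (t * t) • (g * g) := by
          simp only [mul_add, add_mul, mul_smul_comm, smul_mul_assoc, smul_add, smul_smul]
          abel
        rw [this, hx, hb, hc, smul_smul, smul_smul, ← add_smul, ← add_smul]
        rw [show x + t * b + t * t * c = c * (t * t) + b * t + x by ring, ht, zero_smul]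
      have hX2 : X = (-t) • g := by
        rw [neg_smul]
        exact eq_neg_of_add_eq_zero_left hz
      refine ⟨-t * μ, ?_⟩
      rw [hX2, LinearMap.smul_apply, hv.apply_eq_smul, smul_smul]
    · push Not at hJ0
      obtain ⟨v, hv⟩ := hI.1
      exact ⟨v, hv, fun X hX => ⟨0, by rw [hJ0 X hX, LinearMap.zero_apply, zero_smul]⟩⟩
  obtain ⟨v, hv, hX⟩ := key
  rcases hI.2 (Submodule.span K {v}) (by
    intro X hX' u hu
    obtain ⟨a, rfl⟩ := Submodule.mem_span_singleton.1 hu
    obtain ⟨c, hc⟩ := hX X hX'
    rw [map_smul, hc]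
    exact Submodule.smul_mem _ _ (Submodule.smul_mem _ _ (Submodule.mem_span_singleton_self v)))
    with h | h
  · exact absurd (Submodule.span_singleton_eq_bot.1 h) hv
  · rw [← finrank_top K W, ← h, finrank_span_singleton hv]

/-- MAIN: the dimension is a power of two -/
theorem cliff [IsAlgClosed K] : ∀ n : ℕ, ∀ (W : Type u) [AddCommGroup W] [Module K W]
    [FiniteDimensional K W] (J : Submodule K (Module.End K W)),
    (∀ X ∈ J, ∃ c : K, X * X = c • (1 : Module.End K W)) → Irr (J : Set (Module.End K W)) →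
    Module.finrank K W = n → ∃ p : ℕ, n = 2 ^ p := by
  intro n
  induction n using Nat.strong_induction_on with
  | _ n ih =>
    intro W _ _ _ J hJ hI hn
    by_cases h : ∃ e ∈ J, e * e = 0 ∧ e ≠ 0
    · obtain ⟨e, he, hee, h0⟩ := h
      obtain ⟨f, hf, hff, hef⟩ := partner hJ hI he h0 hee
      have h1 := finrank_ker hee hef
      have h2 := red_irr hJ hI he hf hee hff hef
      have h3 : 0 < Module.finrank K (LinearMap.ker e) := by
        obtain ⟨v, hv⟩ := h2.1
        have : Nontrivial (LinearMap.ker e) := ⟨⟨v, 0, hv⟩⟩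
        exact Module.finrank_pos
      obtain ⟨p, hp⟩ := ih (Module.finrank K (LinearMap.ker e)) (by omega)
        (LinearMap.ker e) (red J e f) (red_sq hJ) h2 rfl
      refine ⟨p + 1, ?_⟩
      rw [← hn, h1, hp, pow_succ, mul_comm]
    · push Not at h
      exact ⟨0, by rw [← hn, line_of_aniso hJ hI h, pow_zero]⟩

end Helper66.BPC
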