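import Mathlib
import Pool.Agent.Helper66.BPC.Cliff

/-! Irreducible modules of the pairs of type `I(1,q)`: the dimension is a binomial coefficient. -/

namespace Helper66.BPC

set_option linter.unusedSectionVars false
set_option linter.unusedSimpArgs false

universe u

variable {K : Type*} [Field K]

/-- dual bases of a Jordan pair of rank one -/
structure Pair {V : Type*} [AddCommGroup V] [Module K V] {ι : Type*} [DecidableEq ι]
    (X Y : ι → Module.End K V) : Prop where
  XX : ∀ i j, X i * X j = 0
  YY : ∀ i j, Y i * Y j = 0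
  XYX : ∀ i j k, X i * Y j * X k + X k * Y j * X i =
    (if i = j then (1 : K) else 0) • X k + (if k = j then (1 : K) else 0) • X i
  YXY : ∀ i j k, Y i * X j * Y k + Y k * X j * Y i =
    (if i = j then (1 : K) else 0) • Y k + (if k = j then (1 : K) else 0) • Y i

/-- the central element -/
def Zel {V : Type*} [AddCommGroup V] [Module K V] {ι : Type*} [Fintype ι]
    (X Y : ι → Module.End K V) : Module.End K V := ∑ i, (X i * Y i - Y i * X i)

namespace Pair

variable {V : Type*} [AddCommGroup V] [Module K V] {ι : Type*} [DecidableEq ι]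
  {X Y : ι → Module.End K V}

lemma symm (h : Pair X Y) : Pair Y X := ⟨h.YY, h.XX, h.YXY, h.XYX⟩

lemma iii [CharZero K] (h : Pair X Y) (i : ι) : X i * Y i * X i = X i := by
  have h1 := h.XYX i i i
  rw [if_pos rfl, one_smul, ← two_smul K, ← two_smul K] at h1
  exact smul_right_injective _ (two_ne_zero : (2 : K) ≠ 0) h1

lemma iji [CharZero K] (h : Pair X Y) {i j : ι} (hij : i ≠ j) : X i * Y j * X i = 0 := by
  have h1 := h.XYX i j i
  rw [if_neg hij, zero_smul, add_zero, ← two_smul K] at h1
  exact (smul_eq_zero.1 h1).resolve_left two_ne_zero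

lemma iij (h : Pair X Y) {i j : ι} (hij : i ≠ j) :
    X i * Y i * X j + X j * Y i * X i = X j := by
  rw [h.XYX i i j, if_pos rfl, if_neg hij.symm, one_smul, zero_smul, add_zero]

lemma ZX [Fintype ι] (h : Pair X Y) (j : ι) :
    Zel X Y * X j - X j * Zel X Y = ((Fintype.card ι : K) + 1) • X j := by
  unfold Zel
  rw [Finset.sum_mul, Finset.mul_sum, ← Finset.sum_sub_distrib]
  have : ∀ i, (X i * Y i - Y i * X i) * X j - X j * (X i * Y i - Y i * X i) =
      X j + (if j = i then (1 : K) else 0) • X i := by
    intro i
    have h1 : (X i * Y i - Y i * X i) * X j - X j * (X i * Y i - Y i * X i) =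
        (X i * Y i * X j + X j * Y i * X i) - Y i * (X i * X j) - (X j * X i) * Y i := by
      noncomm_ring
    rw [h1, h.XX, h.XX, mul_zero, zero_mul, sub_zero, sub_zero, h.XYX, if_pos rfl, one_smul]
  rw [Finset.sum_congr rfl (fun i _ => this i), Finset.sum_add_distrib, Finset.sum_const,
    Finset.card_univ, add_smul, one_smul]
  congr 1
  · rw [Nat.cast_smul_eq_nsmul]
  · rw [Finset.sum_eq_single j]
    · rw [if_pos rfl, one_smul]
    · intro b _ hb
      rw [if_neg hb.symm, zero_smul]
    · intro h2
      exact absurd (Finset.mem_univ _) h2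

lemma Zel_symm [Fintype ι] : Zel Y X = - Zel X Y := by
  unfold Zel
  rw [← Finset.sum_neg_distrib]
  exact Finset.sum_congr rfl (fun i _ => by abel)

lemma ZY [Fintype ι] (h : Pair X Y) (j : ι) :
    Zel X Y * Y j - Y j * Zel X Y = -(((Fintype.card ι : K) + 1) • Y j) := by
  have h1 := h.symm.ZX j
  rw [Zel_symm] at h1
  rw [← h1]
  noncomm_ring

/-- restriction to a stable subspace -/
lemma restr (h : Pair X Y) {U : Submodule K V} (hX : ∀ i, ∀ u ∈ U, X i u ∈ U)
    (hY : ∀ i, ∀ u ∈ U, Y i u ∈ U) :
    Pair (fun i => (X i).restrict (hX i)) (fun i => (Y i).restrict (hY i)) := by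
  constructor
  · intro i j
    ext u
    have := congrArg (fun g => g (u : V)) (h.XX i j)
    simpa using this
  · intro i j
    ext u
    have := congrArg (fun g => g (u : V)) (h.YY i j)
    simpa using this
  · intro i j k
    ext u
    have := congrArg (fun g => g (u : V)) (h.XYX i j k)
    simp only [LinearMap.add_apply, Module.End.mul_apply, LinearMap.smul_apply] at this
    simp only [LinearMap.add_apply, Module.End.mul_apply, LinearMap.smul_apply,
      Submodule.coe_add, Submodule.coe_smul, LinearMap.coe_restrict_apply]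
    exact this
  · intro i j k
    ext u
    have := congrArg (fun g => g (u : V)) (h.YXY i j k)
    simp only [LinearMap.add_apply, Module.End.mul_apply, LinearMap.smul_apply] at this
    simp only [LinearMap.add_apply, Module.End.mul_apply, LinearMap.smul_apply,
      Submodule.coe_add, Submodule.coe_smul, LinearMap.coe_restrict_apply]
    exact this

/-- reindexing along an injective map -/
lemma comp {κ : Type*} [DecidableEq κ] (h : Pair X Y) {f : κ → ι} (hf : Function.Injective f) :
    Pair (fun i => X (f i)) (fun i => Y (f i)) := by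
  constructor
  · intro i j; exact h.XX _ _
  · intro i j; exact h.YY _ _
  · intro i j k
    rw [h.XYX]
    simp only [hf.eq_iff]
  · intro i j k
    rw [h.YXY]
    simp only [hf.eq_iff]

end Pair

section step

variable [CharZero K] {V : Type*} [AddCommGroup V] [Module K V] {q : ℕ}
  {X Y : Fin (q + 1) → Module.End K V}

/-- the data at an index: eigenvalues of the central element -/
structure Eig (X Y : Fin (q + 1) → Module.End K V) (c c' : K) : Prop where
  P : Pair X Y
  sum : c + c' = (q : K) + 2
  quad : (Zel X Y - c • (1 : Module.End K V)) * (Zel X Y + c' • (1 : Module.End K V)) = 0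

namespace Eig

variable {c c' : K}

lemma symm (h : Eig X Y c c') : Eig Y X c' c := by
  refine ⟨h.P.symm, by rw [add_comm]; exact h.sum, ?_⟩
  rw [Pair.Zel_symm]
  have h1 := h.quad
  have : (-Zel X Y - c' • (1 : Module.End K V)) * (-Zel X Y + c • (1 : Module.End K V)) =
      (Zel X Y - c • (1 : Module.End K V)) * (Zel X Y + c' • (1 : Module.End K V)) := by
    simp only [mul_add, mul_sub, add_mul, sub_mul, mul_neg, neg_mul, mul_smul_comm,
      smul_mul_assoc, mul_one, one_mul, smul_smul, smul_neg, smul_add, smul_sub]
    rw [mul_comm c' c]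
    abel
  rw [this, h1]

lemma N_ne : ((q : K) + 2) ≠ 0 := by
  have : ((q : K) + 2) = ((q + 2 : ℕ) : K) := by push_cast; rfl
  rw [this]
  exact Nat.cast_ne_zero.2 (by omega)

lemma zx (h : Eig X Y c c') (j : Fin (q + 1)) :
    Zel X Y * X j - X j * Zel X Y = ((q : K) + 2) • X j := by
  rw [h.P.ZX, Fintype.card_fin]
  congr 1
  push_cast
  ring

lemma ZX (h : Eig X Y c c') (j : Fin (q + 1)) : Zel X Y * X j = c • X j := by
  have h1 := h.zx j
  have hq := h.quad
  set Z := Zel X Y with hZ
  have hN := N_ne (K := K) (q := q)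
  have h2 : X j * Z = Z * X j - ((q : K) + 2) • X j := by rw [← h1]; abel
  have e1 : (Z - c • (1 : Module.End K V)) * (Z + c' • (1 : Module.End K V)) * X j = 0 := by
    rw [hq, zero_mul]
  have e2 : X j * ((Z - c • (1 : Module.End K V)) * (Z + c' • (1 : Module.End K V))) = 0 := by
    rw [hq, mul_zero]
  -- (Z - N - c)(Z - N + c') X = 0
  have e3 : X j * ((Z - c • (1 : Module.End K V)) * (Z + c' • (1 : Module.End K V))) =
      Z * Z * X j - (2 * ((q : K) + 2) + c - c') • (Z * X j) +
        (((q : K) + 2) * ((q : K) + 2) + ((q : K) + 2) * c - ((q : K) + 2) * c' - c * c') • X j := by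
    have e4 : X j * ((Z - c • (1 : Module.End K V)) * (Z + c' • (1 : Module.End K V))) =
        (X j * Z) * Z + c' • (X j * Z) - c • (X j * Z) - (c * c') • X j := by
      simp only [mul_add, mul_sub, sub_mul, mul_smul_comm, smul_mul_assoc, mul_one,
        one_mul, smul_smul, mul_assoc]
      module
    rw [e4, h2]
    have e5 : (Z * X j - ((q : K) + 2) • X j) * Z = Z * (X j * Z) - ((q : K) + 2) • (X j * Z) := by
      rw [sub_mul, smul_mul_assoc, mul_assoc]
    rw [e5, h2]
    simp only [mul_sub, mul_smul_comm, mul_assoc]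
    module
  have e6 : (Z - c • (1 : Module.End K V)) * (Z + c' • (1 : Module.End K V)) * X j =
      Z * Z * X j - (c - c') • (Z * X j) - (c * c') • X j := by
    simp only [mul_add, sub_mul, add_mul, mul_smul_comm, smul_mul_assoc, mul_one,
      one_mul, smul_smul, mul_assoc]
    module
  rw [e3] at e2
  rw [e6] at e1
  have e7 : (2 * ((q : K) + 2)) • (Z * X j - c • X j) = 0 := by
    have : (2 * ((q : K) + 2)) • (Z * X j - c • X j) =
        (Z * Z * X j - (c - c') • (Z * X j) - (c * c') • X j) -
        (Z * Z * X j - (2 * ((q : K) + 2) + c - c') • (Z * X j) +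
        (((q : K) + 2) * ((q : K) + 2) + ((q : K) + 2) * c - ((q : K) + 2) * c' - c * c') • X j) +
        (((q : K) + 2) * ((q : K) + 2 - (c + c'))) • X j := by
      module
    rw [this, e1, e2, h.sum, sub_self, sub_self, mul_zero, zero_smul, add_zero]
  have e8 := (smul_eq_zero.1 e7).resolve_left (mul_ne_zero two_ne_zero hN)
  exact sub_eq_zero.1 e8

lemma XZ (h : Eig X Y c c') (j : Fin (q + 1)) : X j * Zel X Y = -(c' • X j) := by
  have h1 := h.zx j
  rw [h.ZX] at h1
  have h2 : X j * Zel X Y = c • X j - ((q : K) + 2) • X j := by rw [← h1]; abel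
  rw [h2, ← h.sum]
  module

lemma ZY (h : Eig X Y c c') (j : Fin (q + 1)) : Zel X Y * Y j = -(c' • Y j) := by
  have h1 := h.symm.ZX j
  rw [Pair.Zel_symm, neg_mul] at h1
  rw [← h1, neg_neg]

lemma YZ (h : Eig X Y c c') (j : Fin (q + 1)) : Y j * Zel X Y = c • Y j := by
  have h1 := h.symm.XZ j
  rw [Pair.Zel_symm, mul_neg] at h1
  exact neg_injective h1

/-- the separating operator -/
def T (X Y : Fin (q + 1) → Module.End K V) (l : Fin (q + 1)) : Module.End K V :=
  Zel X Y - ((q : K) + 2) • (X l * Y l - Y l * X l)

lemma T_symm (l : Fin (q + 1)) : T Y X l = - T X Y l := by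
  unfold T
  rw [Pair.Zel_symm, ← neg_sub (X l * Y l), smul_neg]
  abel

lemma hX (h : Eig X Y c c') {l i : Fin (q + 1)} (hi : i ≠ l) :
    (X l * Y l - Y l * X l) * X i - X i * (X l * Y l - Y l * X l) = X i := by
  have : (X l * Y l - Y l * X l) * X i - X i * (X l * Y l - Y l * X l) =
      (X l * Y l * X i + X i * Y l * X l) - Y l * (X l * X i) - (X i * X l) * Y l := by
    noncomm_ring
  rw [this, h.P.XX, h.P.XX, h.P.iij hi.symm, mul_zero, zero_mul, sub_zero, sub_zero]

lemma T_comm_X (h : Eig X Y c c') {l i : Fin (q + 1)} (hi : i ≠ l) :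
    T X Y l * X i = X i * T X Y l := by
  have h1 := h.zx i
  have h2 := h.hX hi
  unfold T
  rw [sub_mul, mul_sub, smul_mul_assoc, mul_smul_comm]
  have e1 : Zel X Y * X i = X i * Zel X Y + ((q : K) + 2) • X i := by rw [← h1]; abel
  have e2 : (X l * Y l - Y l * X l) * X i = X i * (X l * Y l - Y l * X l) + X i := by
    nth_rewrite 3 [← h2]; abel
  rw [e1, e2, smul_add]
  abel

lemma T_comm_Y (h : Eig X Y c c') {l i : Fin (q + 1)} (hi : i ≠ l) :
    T X Y l * Y i = Y i * T X Y l := by
  have := h.symm.T_comm_X hi
  rw [T_symm, neg_mul, mul_neg] at this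
  exact neg_injective this

lemma XT (h : Eig X Y c c') (l : Fin (q + 1)) : X l * T X Y l = c • X l := by
  unfold T
  have e : X l * (X l * Y l - Y l * X l) = - X l := by
    rw [mul_sub, ← mul_assoc, ← mul_assoc, h.P.XX, h.P.iii, zero_mul, zero_sub]
  rw [mul_sub, mul_smul_comm, h.XZ, e, ← h.sum]
  module

lemma TX (h : Eig X Y c c') (l : Fin (q + 1)) : T X Y l * X l = -(c' • X l) := by
  unfold T
  have e : (X l * Y l - Y l * X l) * X l = X l := by
    rw [sub_mul, mul_assoc (Y l), h.P.XX, h.P.iii, mul_zero, sub_zero]
  rw [sub_mul, smul_mul_assoc, h.ZX, e, ← h.sum]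
  module

lemma YT (h : Eig X Y c c') (l : Fin (q + 1)) : Y l * T X Y l = -(c' • Y l) := by
  have := h.symm.XT l
  rw [T_symm, mul_neg] at this
  rw [← this, neg_neg]

lemma TY (h : Eig X Y c c') (l : Fin (q + 1)) : T X Y l * Y l = c • Y l := by
  have := h.symm.TX l
  rw [T_symm, neg_mul] at this
  exact neg_injective this

/-- the quadratic equation of `T` -/
lemma T_quad (h : Eig X Y c c') (l : Fin (q + 1)) :
    (T X Y l - c • (1 : Module.End K V)) * (T X Y l + c' • (1 : Module.End K V)) = 0 := by
  have hq := h.quad
  have hh : (X l * Y l - Y l * X l) * (X l * Y l - Y l * X l) = X l * Y l + Y l * X l := by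
    have : (X l * Y l - Y l * X l) * (X l * Y l - Y l * X l) = (X l * Y l * X l) * Y l -
        X l * (Y l * Y l) * X l - Y l * (X l * X l) * Y l + (Y l * X l * Y l) * X l := by
      noncomm_ring
    rw [this, h.P.iii, h.P.symm.iii, h.P.XX, h.P.YY]
    simp
  have hZh : Zel X Y * (X l * Y l - Y l * X l) = c • (X l * Y l) + c' • (Y l * X l) := by
    rw [mul_sub, ← mul_assoc, ← mul_assoc, h.ZX, h.ZY, neg_mul, smul_mul_assoc, smul_mul_assoc,
      sub_neg_eq_add]
  have hhZ : (X l * Y l - Y l * X l) * Zel X Y = c • (X l * Y l) + c' • (Y l * X l) := by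
    rw [sub_mul, mul_assoc, mul_assoc, h.YZ, h.XZ, mul_neg, mul_smul_comm, mul_smul_comm,
      sub_neg_eq_add]
  unfold T
  generalize hHd : (X l * Y l - Y l * X l) = H at *
  set Z := Zel X Y with hZd
  have e1 : (Z - ((q : K) + 2) • H - c • (1 : Module.End K V)) *
      (Z - ((q : K) + 2) • H + c' • (1 : Module.End K V)) =
      (Z - c • (1 : Module.End K V)) * (Z + c' • (1 : Module.End K V)) -
      ((q : K) + 2) • (Z * H) - ((q : K) + 2) • (H * Z) +
      (((q : K) + 2) * ((q : K) + 2)) • (H * H) + (((q : K) + 2) * (c - c')) • H := by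
    simp only [mul_add, mul_sub, sub_mul, mul_smul_comm, smul_mul_assoc, mul_one,
      one_mul, smul_smul, smul_sub]
    module
  rw [e1, hq, hZh, hhZ, hh, ← hHd, ← h.sum]
  module

/-- the complement of `U` used to test irreducibility -/
def colon (X Y : Fin (q + 1) → Module.End K V) (l : Fin (q + 1)) (c : K) (U : Submodule K V) :
    Submodule K V :=
  LinearMap.ker (T X Y l - c • (1 : Module.End K V)) ⊓ U.comap (X l) ⊓
    ⨅ i : {i : Fin (q + 1) // i ≠ l}, U.comap (X l * Y i.1)

lemma mem_colon {l : Fin (q + 1)} {U : Submodule K V} {b : V} :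
    b ∈ colon X Y l c U ↔ T X Y l b = c • b ∧ X l b ∈ U ∧ ∀ i ≠ l, X l (Y i b) ∈ U := by
  unfold colon
  rw [Submodule.mem_inf, Submodule.mem_inf, LinearMap.mem_ker, Submodule.mem_comap,
    Submodule.mem_iInf]
  simp only [LinearMap.sub_apply, LinearMap.smul_apply, Module.End.one_apply, sub_eq_zero,
    Submodule.mem_comap, Module.End.mul_apply, Subtype.forall, and_assoc]

lemma mem_Va {l : Fin (q + 1)} {v : V} :
    v ∈ LinearMap.ker (T X Y l + c' • (1 : Module.End K V)) ↔ T X Y l v = -(c' • v) := by
  rw [LinearMap.mem_ker, LinearMap.add_apply, LinearMap.smul_apply, Module.End.one_apply,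
    add_eq_zero_iff_eq_neg]

lemma Xl_zero (h : Eig X Y c c') {l : Fin (q + 1)} {u : V} (hu : T X Y l u = -(c' • u)) :
    X l u = 0 := by
  have h1 := congrArg (fun g => g u) (h.XT l)
  simp only [Module.End.mul_apply, LinearMap.smul_apply] at h1
  rw [hu, map_neg, map_smul] at h1
  have h2 : ((q : K) + 2) • X l u = 0 := by
    rw [← h.sum, add_smul, ← h1, neg_add_cancel]
  exact (smul_eq_zero.1 h2).resolve_left N_ne

lemma Yl_zero (h : Eig X Y c c') {l : Fin (q + 1)} {u : V} (hu : T X Y l u = c • u) :
    Y l u = 0 := by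
  apply h.symm.Xl_zero
  rw [T_symm, LinearMap.neg_apply, hu]

/-- the reduced central element on the eigenspace -/
lemma Zred (h : Eig X Y c c') {l : Fin (q + 1)} {u : V} (hu : T X Y l u = -(c' • u)) :
    Zel X Y u - (X l * Y l - Y l * X l) u = -(c' • u) + ((q : K) + 1) • X l (Y l u) := by
  have h0 := h.Xl_zero hu
  have h1 : T X Y l u = Zel X Y u - ((q : K) + 2) • X l (Y l u) := by
    unfold T
    simp only [LinearMap.sub_apply, LinearMap.smul_apply, Module.End.mul_apply, h0, map_zero,
      sub_zero]
  rw [hu] at h1
  have h2 : Zel X Y u = -(c' • u) + ((q : K) + 2) • X l (Y l u) := by rw [h1]; abel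
  rw [h2]
  simp only [LinearMap.sub_apply, Module.End.mul_apply, h0, map_zero, sub_zero]
  module

lemma N1_ne : ((q : K) + 1) ≠ 0 := by
  have : ((q : K) + 1) = ((q + 1 : ℕ) : K) := by push_cast; rfl
  rw [this]
  exact Nat.cast_ne_zero.2 (by omega)

/-- irreducibility of the eigenspace -/
lemma irrA (h : Eig X Y c c') (hI : Irr (Set.range X ∪ Set.range Y)) {l : Fin (q + 1)}
    {U : Submodule K V} (hU : ∀ u ∈ U, T X Y l u = -(c' • u))
    (hX : ∀ i ≠ l, ∀ u ∈ U, X i u ∈ U) (hY : ∀ i ≠ l, ∀ u ∈ U, Y i u ∈ U) :
    U = ⊥ ∨ ∀ v, T X Y l v = -(c' • v) → v ∈ U := by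
  have hP : ∀ u ∈ U, X l (Y l u) ∈ U := by
    intro u hu
    have h1 := h.Zred (hU u hu)
    have h2 : Zel X Y u - (X l * Y l - Y l * X l) u ∈ U := by
      have : Zel X Y u - (X l * Y l - Y l * X l) u =
          ∑ i ∈ Finset.univ.erase l, (X i * Y i - Y i * X i) u := by
        unfold Zel
        rw [LinearMap.sum_apply, ← Finset.sum_erase_add _ _ (Finset.mem_univ l)]
        abel
      rw [this]
      apply Submodule.sum_mem
      intro i hi
      have hil := Finset.ne_of_mem_erase hi
      rw [LinearMap.sub_apply]
      exact U.sub_mem (hX i hil _ (hY i hil _ hu)) (hY i hil _ (hX i hil _ hu))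
    rw [h1] at h2
    have h3 : ((q : K) + 1) • X l (Y l u) ∈ U := by
      have := U.add_mem h2 (U.smul_mem c' hu)
      convert this using 1
      abel
    have h4 := U.smul_mem ((q : K) + 1)⁻¹ h3
    rwa [smul_smul, inv_mul_cancel₀ N1_ne, one_smul] at h4
  have ap : ∀ {A B : Module.End K V} (_ : A = B) (v : V), A v = B v := fun e v => by rw [e]
  have hst : ∀ g ∈ Set.range X ∪ Set.range Y, ∀ v ∈ U ⊔ colon X Y l c U,
      g v ∈ U ⊔ colon X Y l c U := by
    intro g hg v hv
    obtain ⟨u, hu, b, hb, rfl⟩ := Submodule.mem_sup.1 hv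
    have hb' := mem_colon.1 hb
    obtain ⟨hb1, hb2, hb3⟩ := hb'
    rcases hg with ⟨i, rfl⟩ | ⟨i, rfl⟩
    · by_cases hi : i = l
      · subst hi
        rw [map_add, h.Xl_zero (hU u hu), zero_add]
        exact Submodule.mem_sup_left hb2
      · rw [map_add]
        apply Submodule.add_mem
        · exact Submodule.mem_sup_left (hX i hi u hu)
        · apply Submodule.mem_sup_right
          rw [mem_colon]
          refine ⟨?_, ?_, ?_⟩
          · have := ap (h.T_comm_X hi) b
            rw [Module.End.mul_apply, Module.End.mul_apply] at this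
            rw [this, hb1, map_smul]
          · have := ap (h.P.XX l i) b
            rw [Module.End.mul_apply, LinearMap.zero_apply] at this
            rw [this]
            exact U.zero_mem
          · intro j hj
            have := ap (h.P.XYX l j i) b
            rw [if_neg hj.symm, zero_smul, zero_add, LinearMap.add_apply] at this
            simp only [Module.End.mul_apply, LinearMap.smul_apply] at this
            have h5 : X l (Y j (X i b)) = (if i = j then (1 : K) else 0) • X l b -
                X i (Y j (X l b)) := by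
              rw [← this]; abel
            rw [h5]
            exact U.sub_mem (U.smul_mem _ hb2) (hX i hi _ (hY j hj _ hb2))
    · by_cases hi : i = l
      · subst hi
        rw [map_add, h.Yl_zero hb1, add_zero]
        apply Submodule.mem_sup_right
        rw [mem_colon]
        refine ⟨?_, hP u hu, ?_⟩
        · have := ap (h.TY i) u
          rwa [Module.End.mul_apply, LinearMap.smul_apply] at this
        · intro j hj
          have := ap (h.P.YY j i) u
          rw [Module.End.mul_apply, LinearMap.zero_apply] at this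
          rw [this, map_zero]
          exact U.zero_mem
      · rw [map_add]
        apply Submodule.add_mem
        · exact Submodule.mem_sup_left (hY i hi u hu)
        · apply Submodule.mem_sup_right
          rw [mem_colon]
          refine ⟨?_, hb3 i hi, ?_⟩
          · have := ap (h.T_comm_Y hi) b
            rw [Module.End.mul_apply, Module.End.mul_apply] at this
            rw [this, hb1, map_smul]
          · intro j hj
            have := ap (h.P.YY j i) b
            rw [Module.End.mul_apply, LinearMap.zero_apply] at this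
            rw [this, map_zero]
            exact U.zero_mem
  rcases hI.2 _ hst with h1 | h1
  · left
    rw [eq_bot_iff]
    intro u hu
    have : u ∈ U ⊔ colon X Y l c U := Submodule.mem_sup_left hu
    rwa [h1] at this
  · right
    intro v hv
    have : v ∈ U ⊔ colon X Y l c U := by rw [h1]; trivial
    obtain ⟨u, hu, b, hb, rfl⟩ := Submodule.mem_sup.1 this
    have hb1 := (mem_colon.1 hb).1
    rw [map_add, hU u hu, hb1] at hv
    have h2 : ((q : K) + 2) • b = 0 := by
      rw [← h.sum, add_smul]
      have : c • b = -(c' • (u + b)) + c' • u := by rw [← hv]; abel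
      rw [this, smul_add]
      abel
    have h3 := (smul_eq_zero.1 h2).resolve_left N_ne
    rwa [h3, add_zero]

/-- the induction step -/
lemma stepA (h : Eig X Y c c') (hI : Irr (Set.range X ∪ Set.range Y))
    (h0 : X (Fin.last q) ≠ 0) :
    ∃ X' Y' : Fin q → Module.End K
        (LinearMap.ker (T X Y (Fin.last q) + c' • (1 : Module.End K V))),
      Pair X' Y' ∧ Irr (Set.range X' ∪ Set.range Y') ∧
      (Zel X' Y' - (c - 1) • (1 : Module.End K _)) * (Zel X' Y' + c' • (1 : Module.End K _)) =
        0 := by
  have hne : ∀ i : Fin q, i.castSucc ≠ Fin.last q := fun i => (Fin.castSucc_lt_last i).ne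
  have sX : ∀ i : Fin q, ∀ u ∈ LinearMap.ker (T X Y (Fin.last q) + c' • (1 : Module.End K V)),
      X i.castSucc u ∈ LinearMap.ker (T X Y (Fin.last q) + c' • (1 : Module.End K V)) := by
    intro i u hu
    rw [mem_Va] at hu ⊢
    have := congrArg (fun g => g u) (h.T_comm_X (hne i))
    simp only [Module.End.mul_apply] at this
    rw [this, hu, map_neg, map_smul]
  have sY : ∀ i : Fin q, ∀ u ∈ LinearMap.ker (T X Y (Fin.last q) + c' • (1 : Module.End K V)),
      Y i.castSucc u ∈ LinearMap.ker (T X Y (Fin.last q) + c' • (1 : Module.End K V)) := by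
    intro i u hu
    rw [mem_Va] at hu ⊢
    have := congrArg (fun g => g u) (h.T_comm_Y (hne i))
    simp only [Module.End.mul_apply] at this
    rw [this, hu, map_neg, map_smul]
  refine ⟨fun i => (X i.castSucc).restrict (sX i), fun i => (Y i.castSucc).restrict (sY i),
    ?_, ?_, ?_⟩
  · exact (h.P.comp (Fin.castSucc_injective q)).restr sX sY
  · constructor
    · obtain ⟨v, hv⟩ : ∃ v, X (Fin.last q) v ≠ 0 := by
        by_contra hcon
        push Not at hcon
        exact h0 (LinearMap.ext hcon)
      refine ⟨⟨X (Fin.last q) v, ?_⟩, fun h' => hv (congrArg Subtype.val h')⟩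
      rw [mem_Va]
      have := congrArg (fun g => g v) (h.TX (Fin.last q))
      simpa only [Module.End.mul_apply, LinearMap.neg_apply, LinearMap.smul_apply] using this
    · intro U' hU'
      have key := h.irrA hI (l := Fin.last q)
        (U := U'.map (LinearMap.ker (T X Y (Fin.last q) + c' • (1 : Module.End K V))).subtype)
        (by
          rintro _ ⟨w, -, rfl⟩
          exact mem_Va.1 w.2)
        (by
          rintro i hi _ ⟨w, hw, rfl⟩
          obtain ⟨j, rfl⟩ := Fin.exists_castSucc_eq.2 hi
          exact ⟨_, hU' _ (Or.inl ⟨j, rfl⟩) w hw, rfl⟩)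
        (by
          rintro i hi _ ⟨w, hw, rfl⟩
          obtain ⟨j, rfl⟩ := Fin.exists_castSucc_eq.2 hi
          exact ⟨_, hU' _ (Or.inr ⟨j, rfl⟩) w hw, rfl⟩)
      rcases key with h1 | h1
      · left
        exact Submodule.map_injective_of_injective (Submodule.injective_subtype _)
          (h1.trans (Submodule.map_bot _).symm)
      · right
        rw [eq_top_iff]
        intro w _
        obtain ⟨w', hw', h2⟩ := h1 w (mem_Va.1 w.2)
        have : w' = w := Subtype.ext h2
        rwa [← this]
  · have hZ : ∀ w : LinearMap.ker (T X Y (Fin.last q) + c' • (1 : Module.End K V)),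
        ((Zel (fun i => (X i.castSucc).restrict (sX i))
          (fun i => (Y i.castSucc).restrict (sY i)) w :
            LinearMap.ker (T X Y (Fin.last q) + c' • (1 : Module.End K V))) : V) =
        -(c' • (w : V)) + ((q : K) + 1) • X (Fin.last q) (Y (Fin.last q) w) := by
      intro w
      rw [← h.Zred (mem_Va.1 w.2)]
      unfold Zel
      rw [Fin.sum_univ_castSucc, LinearMap.sum_apply, LinearMap.add_apply, LinearMap.sum_apply,
        add_sub_cancel_right, AddSubmonoidClass.coe_finsetSum]
      rfl
    ext w
    have hPw : T X Y (Fin.last q) (X (Fin.last q) (Y (Fin.last q) w)) =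
        -(c' • (X (Fin.last q) (Y (Fin.last q) w))) := by
      have := congrArg (fun g => g (Y (Fin.last q) w)) (h.TX (Fin.last q))
      simpa only [Module.End.mul_apply, LinearMap.neg_apply, LinearMap.smul_apply] using this
    have e1 : ((((Zel (fun i : Fin q => (X i.castSucc).restrict (sX i))
          (fun i : Fin q => (Y i.castSucc).restrict (sY i)) + c' • (1 : Module.End K
          (LinearMap.ker (T X Y (Fin.last q) + c' • (1 : Module.End K V))))) w :
            LinearMap.ker (T X Y (Fin.last q) + c' • (1 : Module.End K V)))) : V) =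
        ((q : K) + 1) • X (Fin.last q) (Y (Fin.last q) w) := by
      rw [LinearMap.add_apply, Submodule.coe_add, hZ, LinearMap.smul_apply, Module.End.one_apply,
        Submodule.coe_smul]
      abel
    rw [Module.End.mul_apply, LinearMap.sub_apply, Submodule.coe_sub, hZ, LinearMap.smul_apply,
      Module.End.one_apply, Submodule.coe_smul, e1, map_smul, map_smul, LinearMap.zero_apply,
      Submodule.coe_zero]
    have e2 : X (Fin.last q) (Y (Fin.last q) (X (Fin.last q) (Y (Fin.last q) w))) =
        X (Fin.last q) (Y (Fin.last q) w) := by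
      have := congrArg (fun g => g (Y (Fin.last q) w)) (h.P.iii (Fin.last q))
      simpa only [Module.End.mul_apply] using this
    rw [e2]
    have e3 : c = (q : K) + 2 - c' := by rw [← h.sum]; ring
    rw [e3]
    module

/-- the dimensions add up -/
lemma finrank_add [FiniteDimensional K V] (h : Eig X Y c c') (l : Fin (q + 1)) :
    Module.finrank K (LinearMap.ker (T X Y l + c' • (1 : Module.End K V))) +
      Module.finrank K (LinearMap.ker (T Y X l + c • (1 : Module.End K V))) =
      Module.finrank K V := by
  apply Submodule.finrank_add_eq_of_isCompl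
  have hq := h.T_quad l
  constructor
  · rw [Submodule.disjoint_def]
    intro v hv hv'
    rw [mem_Va] at hv hv'
    rw [T_symm, LinearMap.neg_apply, neg_inj] at hv'
    rw [hv] at hv'
    have h2 : ((q : K) + 2) • v = 0 := by
      rw [← h.sum, add_smul, ← hv']
      abel
    exact (smul_eq_zero.1 h2).resolve_left N_ne
  · rw [codisjoint_iff, eq_top_iff]
    intro v _
    have hq' : (T X Y l + c' • (1 : Module.End K V)) * (T X Y l - c • (1 : Module.End K V)) = 0 := by
      rw [← hq]
      simp only [mul_add, mul_sub, add_mul, sub_mul, mul_smul_comm, smul_mul_assoc, mul_one,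
        one_mul]
      module
    have a1 : (T X Y l - c • (1 : Module.End K V)) v ∈
        LinearMap.ker (T X Y l + c' • (1 : Module.End K V)) := by
      rw [LinearMap.mem_ker, ← Module.End.mul_apply, hq', LinearMap.zero_apply]
    have a2 : (T X Y l + c' • (1 : Module.End K V)) v ∈
        LinearMap.ker (T Y X l + c • (1 : Module.End K V)) := by
      rw [LinearMap.mem_ker, T_symm, ← Module.End.mul_apply]
      have : (-T X Y l + c • (1 : Module.End K V)) * (T X Y l + c' • (1 : Module.End K V)) =
          -((T X Y l - c • (1 : Module.End K V)) * (T X Y l + c' • (1 : Module.End K V))) := by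
        rw [← neg_mul]
        congr 1
        abel
      rw [this, hq, neg_zero, LinearMap.zero_apply]
    have a3 : v = ((q : K) + 2)⁻¹ • (-(T X Y l - c • (1 : Module.End K V)) v) +
        ((q : K) + 2)⁻¹ • (T X Y l + c' • (1 : Module.End K V)) v := by
      rw [← smul_add]
      have : -(T X Y l - c • (1 : Module.End K V)) v + (T X Y l + c' • (1 : Module.End K V)) v =
          ((q : K) + 2) • v := by
        rw [← h.sum]
        simp only [LinearMap.sub_apply, LinearMap.add_apply, LinearMap.smul_apply,
          Module.End.one_apply]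
        module
      rw [this, smul_smul, inv_mul_cancel₀ N_ne, one_smul]
    rw [a3]
    apply Submodule.add_mem
    · exact Submodule.mem_sup_left (Submodule.smul_mem _ _ (Submodule.neg_mem _ a1))
    · exact Submodule.mem_sup_right (Submodule.smul_mem _ _ a2)

end Eig

end step

/-- irreducible under zero operators -/
lemma finrank_one {V : Type*} [AddCommGroup V] [Module K V] {S : Set (Module.End K V)}
    (hI : Irr S) (h0 : ∀ X ∈ S, X = 0) : Module.finrank K V = 1 := by
  obtain ⟨v, hv⟩ := hI.1
  rcases hI.2 (Submodule.span K {v}) (by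
    intro X hX' u _
    rw [h0 X hX', LinearMap.zero_apply]
    exact Submodule.zero_mem _) with h | h
  · exact absurd (Submodule.span_singleton_eq_bot.1 h) hv
  · rw [← finrank_top K V, ← h, finrank_span_singleton hv]

/-- MAIN: the dimension is a binomial coefficient -/
theorem binom [CharZero K] : ∀ (q : ℕ) (V : Type u) [AddCommGroup V] [Module K V]
    [FiniteDimensional K V] (X Y : Fin q → Module.End K V) (c c' : K), Pair X Y →
    Irr (Set.range X ∪ Set.range Y) → c + c' = (q : K) + 1 →
    (Zel X Y - c • (1 : Module.End K V)) * (Zel X Y + c' • (1 : Module.End K V)) = 0 →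
    ∃ m m' : ℕ, c = m ∧ c' = m' ∧ Module.finrank K V = (m + m').choose m := by
  intro q
  induction q with
  | zero =>
    intro V _ _ _ X Y c c' _ hI hs hq
    have hZ : Zel X Y = 0 := by unfold Zel; simp
    rw [hZ] at hq
    have hf := finrank_one hI (by
      rintro g (⟨i, rfl⟩ | ⟨i, rfl⟩)
      · exact i.elim0
      · exact i.elim0)
    obtain ⟨v, hv⟩ := hI.1
    have h1 : (c * c') • v = 0 := by
      have := congrArg (fun g => g v) hq
      simp only [zero_sub, zero_add, Module.End.mul_apply, LinearMap.neg_apply,
        LinearMap.smul_apply, Module.End.one_apply, LinearMap.zero_apply, smul_smul] at this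
      exact neg_eq_zero.1 this
    rcases mul_eq_zero.1 ((smul_eq_zero.1 h1).resolve_right hv) with h2 | h2
    · refine ⟨0, 1, by simp [h2], ?_, by simp [hf]⟩
      rw [h2] at hs
      simpa using hs
    · refine ⟨1, 0, ?_, by simp [h2], by simp [hf]⟩
      rw [h2] at hs
      simpa using hs
  | succ q ih =>
    intro V _ _ _ X Y c c' hP hI hs hq
    have hs2 : c + c' = (q : K) + 2 := by
      rw [hs]
      push_cast
      ring
    have h : Eig X Y c c' := ⟨hP, hs2, hq⟩
    by_cases h0 : X (Fin.last q) = 0
    · have hX : ∀ i, X i = 0 := by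
        intro i
        by_cases hi : i = Fin.last q
        · rw [hi, h0]
        · have := hP.iij (Ne.symm hi)
          rw [h0, zero_mul, zero_mul, mul_zero, add_zero] at this
          exact this.symm
      have hY : ∀ i, Y i = 0 := by
        intro i
        have := hP.symm.iii i
        rw [hX, mul_zero, zero_mul] at this
        exact this.symm
      have hZ : Zel X Y = 0 := by
        unfold Zel
        exact Finset.sum_eq_zero (fun i _ => by rw [hX, hY]; simp)
      rw [hZ] at hq
      have hf := finrank_one hI (by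
        rintro g (⟨i, rfl⟩ | ⟨i, rfl⟩)
        · exact hX i
        · exact hY i)
      obtain ⟨v, hv⟩ := hI.1
      have h1 : (c * c') • v = 0 := by
        have := congrArg (fun g => g v) hq
        simp only [zero_sub, zero_add, Module.End.mul_apply, LinearMap.neg_apply,
          LinearMap.smul_apply, Module.End.one_apply, LinearMap.zero_apply, smul_smul] at this
        exact neg_eq_zero.1 this
      rcases mul_eq_zero.1 ((smul_eq_zero.1 h1).resolve_right hv) with h2 | h2
      · refine ⟨0, q + 2, by simp [h2], ?_, by simp [hf]⟩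
        rw [h2, zero_add] at hs2
        rw [hs2]
        push_cast
        ring
      · refine ⟨q + 2, 0, ?_, by simp [h2], by simp [hf]⟩
        rw [h2, add_zero] at hs2
        rw [hs2]
        push_cast
        ring
    · have h0' : Y (Fin.last q) ≠ 0 := by
        intro h1
        apply h0
        have := hP.iii (Fin.last q)
        rw [h1, mul_zero, zero_mul] at this
        exact this.symm
      obtain ⟨X1, Y1, hP1, hI1, hq1⟩ := h.stepA hI h0
      obtain ⟨X2, Y2, hP2, hI2, hq2⟩ := h.symm.stepA (by rw [Set.union_comm]; exact hI) h0'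
      obtain ⟨m1, m1', e1, e1', f1⟩ := ih _ X1 Y1 (c - 1) c' hP1 hI1
        (by rw [sub_add_eq_add_sub, hs2]; ring) hq1
      obtain ⟨m2, m2', e2, e2', f2⟩ := ih _ X2 Y2 (c' - 1) c hP2 hI2
        (by rw [sub_add_eq_add_sub, add_comm, hs2]; ring) hq2
      have g1 : m2' = m1 + 1 := by
        have : (m2' : K) = ((m1 + 1 : ℕ) : K) := by
          rw [← e2']
          push_cast
          rw [← e1]
          ring
        exact_mod_cast this
      have g2 : m1' = m2 + 1 := by
        have : (m1' : K) = ((m2 + 1 : ℕ) : K) := by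
          rw [← e1']
          push_cast
          rw [← e2]
          ring
        exact_mod_cast this
      refine ⟨m1 + 1, m2 + 1, ?_, ?_, ?_⟩
      · push_cast
        rw [← e1]
        ring
      · push_cast
        rw [← e2]
        ring
      · rw [← h.finrank_add (Fin.last q), f1, f2, g1, g2]
        have a1 : m1 + 1 + (m2 + 1) = (m1 + (m2 + 1)) + 1 := by ring
        have a2 : (m2 + (m1 + 1)).choose m2 = (m1 + (m2 + 1)).choose (m1 + 1) := by
          have : m2 + (m1 + 1) = m1 + (m2 + 1) := by ring
          rw [this]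
          apply Nat.choose_symm_of_eq_add
          ring
        rw [a1, a2, Nat.choose_succ_succ]

end Helper66.BPC
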