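import Mathlib
import Pool.Agent.Helper66.BPC.Binom

/-! Pairs of type `I(1,q)` with a half element: `q + 1 = 2k` and the dimension is `C(2k,k)`. -/

namespace Helper66.BPC

set_option linter.unusedSectionVars false

universe u

variable {K : Type*} [Field K] [CharZero K]

section

variable {V : Type*} [AddCommGroup V] [Module K V] {q : ℕ} {X Y : Fin q → Module.End K V}

lemma P_comm (hP : Pair X Y) (i j : Fin q) :
    (X i * Y i) * (X j * Y j) = (X j * Y j) * (X i * Y i) := by
  by_cases hij : i = j
  · rw [hij]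
  · have h1 := hP.iij hij
    have h2 := hP.symm.iij hij
    have e1 : (X i * Y i) * (X j * Y j) = (X i * Y i * X j) * Y j := by noncomm_ring
    have e2 : (X j * Y j) * (X i * Y i) = X j * (Y j * X i * Y i) := by noncomm_ring
    have e3 : X i * Y i * X j = X j - X j * Y i * X i := by
      nth_rewrite 2 [← h1]; abel
    have e4 : Y j * X i * Y i = Y j - Y i * X i * Y j := by
      nth_rewrite 2 [← h2]; abel
    rw [e1, e2, e3, e4]
    noncomm_ring

/-- joint eigenvectors -/
lemma joint (hP : Pair X Y) {h : Module.End K V}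
    (hc : ∀ i, h * (X i * Y i) = (X i * Y i) * h) {t : K} {v0 : V} (hv0 : v0 ≠ 0)
    (hh : h v0 = t • v0) (s : Finset (Fin q)) :
    ∃ v : V, v ≠ 0 ∧ h v = t • v ∧ ∀ i ∈ s, X i (Y i v) = 0 ∨ X i (Y i v) = v := by
  classical
  induction s using Finset.induction_on with
  | empty => exact ⟨v0, hv0, hh, by simp⟩
  | insert i s _ ih =>
    obtain ⟨v, hv, hv1, hv2⟩ := ih
    by_cases h0 : X i (Y i v) = 0
    · refine ⟨v, hv, hv1, ?_⟩
      intro j hj
      rcases Finset.mem_insert.1 hj with rfl | hj
      · exact Or.inl h0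
      · exact hv2 j hj
    · refine ⟨X i (Y i v), h0, ?_, ?_⟩
      · have := congrArg (fun g => g v) (hc i)
        simp only [Module.End.mul_apply] at this
        rw [this, hv1, map_smul, map_smul]
      · intro j hj
        rcases Finset.mem_insert.1 hj with rfl | hj
        · right
          have := congrArg (fun g => g (Y j v)) (hP.iii j)
          simpa only [Module.End.mul_apply] using this
        · have := congrArg (fun g => g v) (P_comm hP j i)
          simp only [Module.End.mul_apply] at this
          rcases hv2 j hj with h2 | h2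
          · left
            rw [this, h2, map_zero, map_zero]
          · right
            rw [this, h2]

end

/-- MAIN, with a half element -/
theorem binom_half {q : ℕ} {V : Type u} [AddCommGroup V] [Module K V] [FiniteDimensional K V]
    {X Y : Fin q → Module.End K V} (hP : Pair X Y) (hI : Irr (Set.range X ∪ Set.range Y))
    (hX0 : ∃ i, X i ≠ 0) {h : Module.End K V} (hh : h * h = (4 : K)⁻¹ • (1 : Module.End K V))
    (hX : ∀ i, h * X i - X i * h = X i) (hY : ∀ i, h * Y i - Y i * h = -Y i)
    (htr : LinearMap.trace K V h = 0) :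
    ∃ k : ℕ, q + 1 = 2 * k ∧ Module.finrank K V = (2 * k).choose k := by
  have hX2 : ∀ i, h * X i = (2 : K)⁻¹ • X i := by
    intro i
    have e1 : h * X i = X i * h + X i := by
      have := hX i
      rw [sub_eq_iff_eq_add] at this
      rw [this, add_comm]
    have e2 : h * h * X i = X i * (h * h) + (2 : K) • (X i * h) + X i := by
      rw [mul_assoc, e1, mul_add, ← mul_assoc, e1, add_mul, mul_assoc, two_smul]
      abel
    rw [hh, smul_mul_assoc, one_mul, mul_smul_comm, mul_one] at e2
    have e3 : (2 : K) • (X i * h) + X i = 0 := by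
      have : (2 : K) • (X i * h) + X i = ((4 : K)⁻¹ • X i + (2 : K) • (X i * h) + X i) -
        (4 : K)⁻¹ • X i := by abel
      rw [this, ← e2, sub_self]
    have e4 : X i * h = -((2 : K)⁻¹ • X i) := by
      have h2 : (2 : K)⁻¹ • ((2 : K) • (X i * h) + X i) = 0 := by rw [e3, smul_zero]
      rw [smul_add, smul_smul, inv_mul_cancel₀ two_ne_zero, one_smul] at h2
      exact eq_neg_of_add_eq_zero_left h2
    rw [e1, e4]
    have : X i = ((2 : K)⁻¹ + (2 : K)⁻¹) • X i := by
      rw [← two_mul, mul_inv_cancel₀ two_ne_zero, one_smul]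
    nth_rewrite 2 [this]
    rw [add_smul]
    abel
  have hXh : ∀ i, X i * h = -((2 : K)⁻¹ • X i) := by
    intro i
    have e1 := hX i
    rw [hX2] at e1
    have : X i * h = (2 : K)⁻¹ • X i - X i := by
      nth_rewrite 3 [← e1]; abel
    rw [this]
    have : X i = ((2 : K)⁻¹ + (2 : K)⁻¹) • X i := by
      rw [← two_mul, mul_inv_cancel₀ two_ne_zero, one_smul]
    nth_rewrite 2 [this]
    rw [add_smul]
    abel
  have hc : ∀ i, h * (X i * Y i) = (X i * Y i) * h := by
    intro i
    have : h * (X i * Y i) - (X i * Y i) * h = (h * X i - X i * h) * Y i +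
        X i * (h * Y i - Y i * h) := by noncomm_ring
    rw [hX, hY, mul_neg, add_neg_cancel] at this
    exact sub_eq_zero.1 this
  obtain ⟨j, hj⟩ := hX0
  obtain ⟨w, hw⟩ : ∃ w, X j w ≠ 0 := by
    by_contra hcon
    push Not at hcon
    exact hj (LinearMap.ext hcon)
  have hw2 : h (X j w) = (2 : K)⁻¹ • X j w := congrArg (fun g => g w) (hX2 j)
  obtain ⟨v, hv, hv1, hv2⟩ := joint hP hc hw hw2 Finset.univ
  have hXv : ∀ i, X i v = 0 := by
    intro i
    have e := congrArg (fun g => g v) (hXh i)
    simp only [Module.End.mul_apply, LinearMap.neg_apply, LinearMap.smul_apply] at e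
    rw [hv1, map_smul] at e
    have : (2 : K)⁻¹ • X i v + (2 : K)⁻¹ • X i v = 0 := by
      nth_rewrite 1 [e]; rw [neg_add_cancel]
    rw [← add_smul, ← two_mul, mul_inv_cancel₀ two_ne_zero, one_smul] at this
    exact this
  have hε : ∀ i, ∃ n : ℕ, X i (Y i v) = (n : K) • v := by
    intro i
    rcases hv2 i (Finset.mem_univ _) with h1 | h1
    · exact ⟨0, by rw [h1]; simp⟩
    · exact ⟨1, by rw [h1]; simp⟩
  choose ε hε using hε
  set c : ℕ := ∑ i, ε i with hcdef
  have hZv : Zel X Y v = (c : K) • v := by
    unfold Zel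
    rw [LinearMap.sum_apply]
    have : ∀ i, (X i * Y i - Y i * X i) v = (ε i : K) • v := by
      intro i
      rw [LinearMap.sub_apply, Module.End.mul_apply, Module.End.mul_apply, hXv, map_zero,
        sub_zero, hε]
    rw [Finset.sum_congr rfl (fun i _ => this i), ← Finset.sum_smul, hcdef]
    push_cast
    rfl
  -- the scalar operator
  set N : K := (q : K) + 1 with hN
  have hN0 : N ≠ 0 := by
    rw [hN]
    have : (q : K) + 1 = ((q + 1 : ℕ) : K) := by push_cast; rfl
    rw [this]
    exact Nat.cast_ne_zero.2 (by omega)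
  have hZX : ∀ i, Zel X Y * X i - X i * Zel X Y = N • X i := by
    intro i
    rw [hP.ZX, Fintype.card_fin]
  have hZY : ∀ i, Zel X Y * Y i - Y i * Zel X Y = -(N • Y i) := by
    intro i
    rw [hP.ZY, Fintype.card_fin]
  have hWX : ∀ i, (Zel X Y - N • h) * X i = X i * (Zel X Y - N • h) := by
    intro i
    have : (Zel X Y - N • h) * X i - X i * (Zel X Y - N • h) =
        (Zel X Y * X i - X i * Zel X Y) - N • (h * X i - X i * h) := by
      rw [sub_mul, mul_sub, smul_mul_assoc, mul_smul_comm, smul_sub]
      abel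
    rw [hZX, hX, sub_self] at this
    exact sub_eq_zero.1 this
  have hWY : ∀ i, (Zel X Y - N • h) * Y i = Y i * (Zel X Y - N • h) := by
    intro i
    have : (Zel X Y - N • h) * Y i - Y i * (Zel X Y - N • h) =
        (Zel X Y * Y i - Y i * Zel X Y) - N • (h * Y i - Y i * h) := by
      rw [sub_mul, mul_sub, smul_mul_assoc, mul_smul_comm, smul_sub]
      abel
    rw [hZY, hY, smul_neg, sub_self] at this
    exact sub_eq_zero.1 this
  have hWv : (Zel X Y - N • h) v = ((c : K) - N * 2⁻¹) • v := by
    rw [LinearMap.sub_apply, LinearMap.smul_apply, hZv, hv1, smul_smul, sub_smul]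
  have hW : Zel X Y - N • h = ((c : K) - N * 2⁻¹) • (1 : Module.End K V) := by
    have hker := hI.2 (LinearMap.ker (Zel X Y - N • h - ((c : K) - N * 2⁻¹) •
      (1 : Module.End K V))) (by
      rintro g hg u hu
      rw [LinearMap.mem_ker, LinearMap.sub_apply, sub_eq_zero, LinearMap.smul_apply,
        Module.End.one_apply] at hu ⊢
      rcases hg with ⟨i, rfl⟩ | ⟨i, rfl⟩
      · rw [← Module.End.mul_apply, hWX, Module.End.mul_apply, hu, map_smul]
      · rw [← Module.End.mul_apply, hWY, Module.End.mul_apply, hu, map_smul])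
    rcases hker with h1 | h1
    · exfalso
      apply hv
      have : v ∈ LinearMap.ker (Zel X Y - N • h - ((c : K) - N * 2⁻¹) •
          (1 : Module.End K V)) := by
        rw [LinearMap.mem_ker, LinearMap.sub_apply, hWv, LinearMap.smul_apply,
          Module.End.one_apply, sub_self]
      rwa [h1] at this
    · exact sub_eq_zero.1 (LinearMap.ker_eq_top.1 h1)
  have hnt : Nontrivial V := ⟨⟨v, 0, hv⟩⟩
  have htrZ : LinearMap.trace K V (Zel X Y) = 0 := by
    unfold Zel
    rw [map_sum]
    apply Finset.sum_eq_zero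
    intro i _
    rw [map_sub, LinearMap.trace_mul_comm, sub_self]
  have hcN : (c : K) - N * 2⁻¹ = 0 := by
    have := congrArg (LinearMap.trace K V) hW
    rw [map_sub, map_smul, htrZ, htr, smul_zero, sub_zero, map_smul, LinearMap.trace_one,
      smul_eq_mul] at this
    rcases mul_eq_zero.1 this.symm with h1 | h1
    · exact h1
    · exfalso
      have : (Module.finrank K V : K) ≠ 0 := Nat.cast_ne_zero.2 Module.finrank_pos.ne'
      exact this h1
  have hZh : Zel X Y = N • h := by
    rw [hcN, zero_smul] at hW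
    exact sub_eq_zero.1 hW
  have hc2 : (c : K) = N * 2⁻¹ := sub_eq_zero.1 hcN
  have hN2 : N = c + c := by
    rw [hc2, ← mul_add, ← two_mul, mul_inv_cancel₀ two_ne_zero, mul_one]
  have hquad : (Zel X Y - (c : K) • (1 : Module.End K V)) *
      (Zel X Y + (c : K) • (1 : Module.End K V)) = 0 := by
    rw [hZh]
    have : (N • h - (c : K) • (1 : Module.End K V)) * (N • h + (c : K) • (1 : Module.End K V)) =
        (N * N) • (h * h) - ((c : K) * c) • (1 : Module.End K V) := by
      simp only [mul_add, sub_mul, mul_smul_comm, smul_mul_assoc, mul_one, one_mul]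
      module
    rw [this, hh, smul_smul, ← sub_smul, hc2]
    have : N * N * 4⁻¹ - N * 2⁻¹ * (N * 2⁻¹) = 0 := by
      have h4 : (4 : K)⁻¹ = 2⁻¹ * 2⁻¹ := by
        rw [← mul_inv]
        norm_num
      rw [h4]
      ring
    rw [this, zero_smul]
  obtain ⟨m, m', e1, e2, e3⟩ := binom q V X Y c c hP hI (by rw [← hN2]) hquad
  have g1 : c = m := by exact_mod_cast e1
  have g2 : c = m' := by exact_mod_cast e2
  refine ⟨c, ?_, ?_⟩
  · have : ((q + 1 : ℕ) : K) = ((2 * c : ℕ) : K) := by
      push_cast
      rw [← hN, hN2, two_mul]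
    exact_mod_cast this
  · rw [e3, ← g1, ← g2, two_mul]

end Helper66.BPC
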